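import Pool.Agent.P.MP_5d580a_an.Wrap

open scoped ComplexOrder

namespace Pool.Agent.Results.MP_5d580a_an.Separable

/-- Noncommutative Stone-Weierstrass theorem for separable subalgebras: a norm separable closed
unital star subalgebra separating the pure states of `B` and the zero functional is all of `B`. -/
theorem result :
    ∀ (B : Type) [CStarAlgebra B] (A : StarSubalgebra ℂ B),
      IsClosed (A : Set B) →
      TopologicalSpace.IsSeparable (A : Set B) →
      (∀ φ ψ : B →L[ℂ] ℂ,
        φ ∈ insert (0 : B →L[ℂ] ℂ)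
          (Set.extremePoints ℝ
            {f : B →L[ℂ] ℂ | (∀ x : B, 0 ≤ f (star x * x)) ∧ ‖f‖ = 1}) →
        ψ ∈ insert (0 : B →L[ℂ] ℂ)
          (Set.extremePoints ℝ
            {f : B →L[ℂ] ℂ | (∀ x : B, 0 ≤ f (star x * x)) ∧ ‖f‖ = 1}) →
        φ ≠ ψ → ∃ a ∈ A, φ a ≠ ψ a) →
      A = ⊤ :=
  fun B _ A hA hs h => Pool.Agent.P.MP_5d580a_an.stone_weierstrass B A hA hs h

end Pool.Agent.Results.MP_5d580a_an.Separable
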